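import Mathlib

set_option autoImplicit false

namespace Pool.Agent.Results.MP_b5aa09_co.PappusCounterexample

/-- Coordinates of a 2-scene with `n` points `(x i, y i)` and `m` non-vertical lines
`A j * X + Y + C j = 0`. -/
structure Scene (n m : ℕ) where
  x : Fin n → ℝ
  y : Fin n → ℝ
  A : Fin m → ℝ
  C : Fin m → ℝ

/-- The scene realises the incidences in `I`. -/
def Scene.Realises {n m : ℕ} (s : Scene n m) (I : Finset (Fin n × Fin m)) : Prop :=
  ∀ p ∈ I, s.A p.2 * s.x p.1 + s.y p.1 + s.C p.2 = 0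

/-- All points of the scene are pairwise distinct and all lines are pairwise distinct. -/
def Scene.Proper {n m : ℕ} (s : Scene n m) : Prop :=
  Function.Injective (fun i => (s.x i, s.y i)) ∧ Function.Injective (fun j => (s.A j, s.C j))

/-- The space of the `2n + 2m` real variables `(u, w, U, W)`. -/
abbrev Vars (n m : ℕ) : Type := (Fin n → ℝ) × (Fin n → ℝ) × (Fin m → ℝ) × (Fin m → ℝ)

/-- The linear form `A_j u_i + x_i U_j + w_i + W_j` of an incidence `(i, j)`. -/
def incForm {n m : ℕ} (s : Scene n m) (p : Fin n × Fin m) : Vars n m →ₗ[ℝ] ℝ where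
  toFun v := s.A p.2 * v.1 p.1 + s.x p.1 * v.2.2.1 p.2 + v.2.1 p.1 + v.2.2.2 p.2
  map_add' v v' := by simp only [Prod.fst_add, Prod.snd_add, Pi.add_apply]; ring
  map_smul' c v := by
    simp only [Prod.smul_fst, Prod.smul_snd, Pi.smul_apply, smul_eq_mul, RingHom.id_apply]; ring

/-- The linear form `(x_i - x_k)(u_i - u_k) + (y_i - y_k)(w_i - w_k)` of a distance constraint
`{i, k}`. -/
def distForm {n m : ℕ} (s : Scene n m) (e : Fin n × Fin n) : Vars n m →ₗ[ℝ] ℝ where
  toFun v := (s.x e.1 - s.x e.2) * (v.1 e.1 - v.1 e.2)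
    + (s.y e.1 - s.y e.2) * (v.2.1 e.1 - v.2.1 e.2)
  map_add' v v' := by simp only [Prod.fst_add, Prod.snd_add, Pi.add_apply]; ring
  map_smul' c v := by
    simp only [Prod.smul_fst, Prod.smul_snd, Pi.smul_apply, smul_eq_mul, RingHom.id_apply]; ring

/-- The incidences `I` are independent at the scene `s`. -/
def IncIndep {n m : ℕ} (s : Scene n m) (I : Finset (Fin n × Fin m)) : Prop :=
  LinearIndependent ℝ (fun p : {p // p ∈ I} => incForm s p.1)

/-- The set `E ∪ I` of distance constraints and incidences is independent at the scene `s`. -/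
def AllIndep {n m : ℕ} (s : Scene n m) (E : Finset (Fin n × Fin n))
    (I : Finset (Fin n × Fin m)) : Prop :=
  LinearIndependent ℝ (Sum.elim (fun e : {e // e ∈ E} => distForm s e.1)
    (fun p : {p // p ∈ I} => incForm s p.1))

/-- Vertices occurring in `E' ∪ I'`. -/
def verts {n m : ℕ} (E' : Finset (Fin n × Fin n)) (I' : Finset (Fin n × Fin m)) :
    Finset (Fin n) :=
  E'.image Prod.fst ∪ E'.image Prod.snd ∪ I'.image Prod.fst

/-- The count `|E'| + |I'| ≤ 2|V'| + 2|F'| - 3` for all `E' ⊆ E`, `I' ⊆ I`, not both empty. -/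
def CountHolds {n m : ℕ} (E : Finset (Fin n × Fin n)) (I : Finset (Fin n × Fin m)) : Prop :=
  ∀ E' ⊆ E, ∀ I' ⊆ I, (E'.Nonempty ∨ I'.Nonempty) →
    E'.card + I'.card + 3 ≤ 2 * (verts E' I').card + 2 * (I'.image Prod.snd).card

/-- incidence reasoning: in the Pappus structure without the last line no degeneracy is possible
once three of the cross pairs are distinct and the last three points are not on one line. -/
theorem inc_lemma {P L : Type} (on : P → L → Prop)
    (ax : ∀ p q j k, on p j → on q j → on p k → on q k → p = q ∨ j = k)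
    (A1 A2 A3 B1 B2 B3 C1 C2 C3 : P) (l m L12 L21 L13 L31 L23 L32 : L)
    (h1 : on A1 l) (h2 : on A2 l) (h3 : on A3 l) (h4 : on B1 m) (h5 : on B2 m) (h6 : on B3 m)
    (h7 : on A1 L12) (h8 : on B2 L12) (h9 : on C3 L12)
    (h10 : on A2 L21) (h11 : on B1 L21) (h12 : on C3 L21)
    (h13 : on A1 L13) (h14 : on B3 L13) (h15 : on C2 L13)
    (h16 : on A3 L31) (h17 : on B1 L31) (h18 : on C2 L31)
    (h19 : on A2 L23) (h20 : on B3 L23) (h21 : on C1 L23)
    (h22 : on A3 L32) (h23 : on B2 L32) (h24 : on C1 L32)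
    (n1 : A1 ≠ B2) (n2 : A2 ≠ B3) (n3 : A3 ≠ B1) (n4 : C1 ≠ C2) (n5 : C2 ≠ C3) (n6 : C1 ≠ C3)
    (nc : ∀ j, ¬ (on C1 j ∧ on C2 j ∧ on C3 j)) : A2 ≠ B1 ∧ L12 ≠ L21 := by
  constructor
  · grind (splits := 30)
  · grind (splits := 30)

/-- Pappus' theorem in coordinates where the first line is the horizontal axis. -/
theorem pappus_alg (a1 a2 a3 b1 b2 b3 h1 h2 h3 x1 y1 x2 y2 x3 y3 r s : ℝ)
    (hb1 : h1 = r * b1 + s) (hb2 : h2 = r * b2 + s) (hb3 : h3 = r * b3 + s)
    (e12 : h2 * (x3 - a1) = (b2 - a1) * y3) (e21 : h1 * (x3 - a2) = (b1 - a2) * y3)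
    (e13 : h3 * (x2 - a1) = (b3 - a1) * y2) (e31 : h1 * (x2 - a3) = (b1 - a3) * y2)
    (e23 : h3 * (x1 - a2) = (b3 - a2) * y1) (e32 : h2 * (x1 - a3) = (b2 - a3) * y1)
    (d3 : h1 * (b2 - a1) - h2 * (b1 - a2) ≠ 0)
    (d2 : h1 * (b3 - a1) - h3 * (b1 - a3) ≠ 0)
    (d1 : h2 * (b3 - a2) - h3 * (b2 - a3) ≠ 0) :
    (x2 - x1) * (y3 - y1) - (x3 - x1) * (y2 - y1) = 0 := by
  have hx3 : (h1 * (b2 - a1) - h2 * (b1 - a2)) * x3
      = h1 * a2 * (b2 - a1) - h2 * a1 * (b1 - a2) := by
    linear_combination (b2 - a1) * e21 - (b1 - a2) * e12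
  have hy3 : (h1 * (b2 - a1) - h2 * (b1 - a2)) * y3 = h1 * h2 * (a2 - a1) := by
    linear_combination h2 * e21 - h1 * e12
  have hx2 : (h1 * (b3 - a1) - h3 * (b1 - a3)) * x2
      = h1 * a3 * (b3 - a1) - h3 * a1 * (b1 - a3) := by
    linear_combination (b3 - a1) * e31 - (b1 - a3) * e13
  have hy2 : (h1 * (b3 - a1) - h3 * (b1 - a3)) * y2 = h1 * h3 * (a3 - a1) := by
    linear_combination h3 * e31 - h1 * e13
  have hx1 : (h2 * (b3 - a2) - h3 * (b2 - a3)) * x1
      = h2 * a3 * (b3 - a2) - h3 * a2 * (b2 - a3) := by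
    linear_combination (b3 - a2) * e32 - (b2 - a3) * e23
  have hy1 : (h2 * (b3 - a2) - h3 * (b2 - a3)) * y1 = h2 * h3 * (a3 - a2) := by
    linear_combination h3 * e32 - h2 * e23
  generalize hd1 : h2 * (b3 - a2) - h3 * (b2 - a3) = D1 at *
  generalize hd2 : h1 * (b3 - a1) - h3 * (b1 - a3) = D2 at *
  generalize hd3 : h1 * (b2 - a1) - h2 * (b1 - a2) = D3 at *
  have key : D1 * D2 * D3 * ((x2 - x1) * (y3 - y1) - (x3 - x1) * (y2 - y1)) = 0 := by
    have e : D1 * D2 * D3 * ((x2 - x1) * (y3 - y1) - (x3 - x1) * (y2 - y1))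
        = D1 * ((D2 * x2) * (D3 * y3) - (D3 * x3) * (D2 * y2))
          + D2 * ((D3 * x3) * (D1 * y1) - (D1 * x1) * (D3 * y3))
          + D3 * ((D1 * x1) * (D2 * y2) - (D2 * x2) * (D1 * y1)) := by ring
    rw [e, hx1, hx2, hx3, hy1, hy2, hy3, ← hd1, ← hd2, ← hd3, hb1, hb2, hb3]
    ring
  have hD : D1 * D2 * D3 ≠ 0 := mul_ne_zero (mul_ne_zero d1 d2) d3
  exact (mul_eq_zero.1 key).resolve_left hD

/-- The Pappus structure without its last line. Vertices `0,1,2` are `A1,A2,A3`, vertices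
`3,4,5` are `B1,B2,B3`, vertices `6,7,8` are `C1,C2,C3`. Line `0` carries the `A`, line `1` the
`B`, and the lines `2,...,7` are `A1B2, A2B1, A1B3, A3B1, A2B3, A3B2`. -/
def pappusI : Finset (Fin 9 × Fin 8) :=
  {(0, 0), (1, 0), (2, 0), (3, 1), (4, 1), (5, 1),
   (0, 2), (4, 2), (8, 2), (1, 3), (3, 3), (8, 3),
   (0, 4), (5, 4), (7, 4), (2, 5), (3, 5), (7, 5),
   (1, 6), (5, 6), (6, 6), (2, 7), (4, 7), (6, 7)}

/-- The distance constraints `C1C2, C2C3, C1C3, A1B2, A2B3, A3B1`. -/
def pappusE : Finset (Fin 9 × Fin 9) :=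
  {(6, 7), (7, 8), (6, 8), (0, 4), (1, 5), (2, 3)}

/-- A point (pair of coordinates) lies on a line (pair of coefficients). -/
def on (p j : ℝ × ℝ) : Prop := j.1 * p.1 + p.2 + j.2 = 0

lemma on_ax (p q j k : ℝ × ℝ) (h1 : on p j) (h2 : on q j) (h3 : on p k) (h4 : on q k) :
    p = q ∨ j = k := by
  unfold on at *
  have h : (j.1 - k.1) * (p.1 - q.1) = 0 := by linear_combination h1 - h2 - h3 + h4
  rcases mul_eq_zero.1 h with h | h
  · right
    have e1 : j.1 = k.1 := sub_eq_zero.1 h
    refine Prod.ext e1 ?_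
    rw [e1] at h1
    linarith
  · left
    have e1 : p.1 = q.1 := sub_eq_zero.1 h
    refine Prod.ext e1 ?_
    rw [e1] at h1
    linarith

lemma ne_fst (p q j : ℝ × ℝ) (h1 : on p j) (h2 : on q j) (h : p ≠ q) : p.1 ≠ q.1 := by
  intro e
  apply h
  refine Prod.ext e ?_
  unfold on at *
  rw [e] at h1
  linarith

lemma ne_slope (p j k : ℝ × ℝ) (h1 : on p j) (h2 : on p k) (h : j ≠ k) : j.1 ≠ k.1 := by
  intro e
  apply h
  refine Prod.ext e ?_
  unfold on at *
  rw [e] at h1
  linarith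

lemma off (P Q l L : ℝ × ℝ) (h1 : on P l) (h2 : on P L) (h3 : on Q L) :
    Q.2 + l.1 * Q.1 + l.2 = (l.1 - L.1) * (Q.1 - P.1) := by
  unfold on at *
  linear_combination h3 + h1 - h2

lemma cross (P Q X l L : ℝ × ℝ) (h1 : on P l) (h2 : on P L) (h3 : on Q L) (h4 : on X L) :
    (Q.2 + l.1 * Q.1 + l.2) * (X.1 - P.1) = (Q.1 - P.1) * (X.2 + l.1 * X.1 + l.2) := by
  rw [off P Q l L h1 h2 h3, off P X l L h1 h2 h4]; ring

/-- Pappus' theorem for nonvertical lines, in the form used below. -/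
theorem pappus_geo (A1 A2 A3 B1 B2 B3 C1 C2 C3 l m L12 L21 L13 L31 L23 L32 : ℝ × ℝ)
    (h1 : on A1 l) (h2 : on A2 l) (h3 : on A3 l) (h4 : on B1 m) (h5 : on B2 m) (h6 : on B3 m)
    (h7 : on A1 L12) (h8 : on B2 L12) (h9 : on C3 L12)
    (h10 : on A2 L21) (h11 : on B1 L21) (h12 : on C3 L21)
    (h13 : on A1 L13) (h14 : on B3 L13) (h15 : on C2 L13)
    (h16 : on A3 L31) (h17 : on B1 L31) (h18 : on C2 L31)
    (h19 : on A2 L23) (h20 : on B3 L23) (h21 : on C1 L23)
    (h22 : on A3 L32) (h23 : on B2 L32) (h24 : on C1 L32)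
    (n1 : A1 ≠ B2) (n2 : A2 ≠ B3) (n3 : A3 ≠ B1) (n4 : C1 ≠ C2) (n5 : C2 ≠ C3) (n6 : C1 ≠ C3) :
    (C2.1 - C1.1) * (C3.2 - C1.2) - (C3.1 - C1.1) * (C2.2 - C1.2) = 0 := by
  by_contra hdet
  have nc : ∀ j, ¬ (on C1 j ∧ on C2 j ∧ on C3 j) := by
    rintro j ⟨g1, g2, g3⟩
    apply hdet
    unfold on at g1 g2 g3
    have e1 : C1.2 = - j.1 * C1.1 - j.2 := by linarith
    have e2 : C2.2 = - j.1 * C2.1 - j.2 := by linarith
    have e3 : C3.2 = - j.1 * C3.1 - j.2 := by linarith
    rw [e1, e2, e3]; ring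
  obtain ⟨m1, k1⟩ := inc_lemma on on_ax A1 A2 A3 B1 B2 B3 C1 C2 C3 l m L12 L21 L13 L31 L23 L32
    h1 h2 h3 h4 h5 h6 h7 h8 h9 h10 h11 h12 h13 h14 h15 h16 h17 h18 h19 h20 h21 h22 h23 h24
    n1 n2 n3 n4 n5 n6 nc
  obtain ⟨m2, k2⟩ := inc_lemma on on_ax A2 A3 A1 B2 B3 B1 C2 C3 C1 l m L23 L32 L21 L12 L31 L13
    h2 h3 h1 h5 h6 h4 h19 h20 h21 h22 h23 h24 h10 h11 h12 h7 h8 h9 h16 h17 h18 h13 h14 h15
    n2 n3 n1 n5 n6.symm n4.symm (fun j h => nc j ⟨h.2.2, h.1, h.2.1⟩)
  obtain ⟨m3, k3⟩ := inc_lemma on on_ax A3 A1 A2 B3 B1 B2 C3 C1 C2 l m L31 L13 L32 L23 L12 L21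
    h3 h1 h2 h6 h4 h5 h16 h17 h18 h13 h14 h15 h22 h23 h24 h19 h20 h21 h7 h8 h9 h10 h11 h12
    n3 n1 n2 n6.symm n4 n5.symm (fun j h => nc j ⟨h.2.1, h.2.2, h.1⟩)
  have a12 := ne_fst A1 B2 L12 h7 h8 n1
  have a23 := ne_fst A2 B3 L23 h19 h20 n2
  have a31 := ne_fst A3 B1 L31 h16 h17 n3
  have a21 := ne_fst A2 B1 L21 h10 h11 m1
  have a32 := ne_fst A3 B2 L32 h22 h23 m2
  have a13 := ne_fst A1 B3 L13 h13 h14 m3
  have s3 := ne_slope C3 L12 L21 h9 h12 k1
  have s1 := ne_slope C1 L23 L32 h21 h24 k2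
  have s2 := ne_slope C2 L31 L13 h18 h15 k3
  have f1 : (B1.2 + l.1 * B1.1 + l.2) * (B2.1 - A1.1) - (B2.2 + l.1 * B2.1 + l.2) * (B1.1 - A2.1)
      = (B1.1 - A2.1) * (B2.1 - A1.1) * (L12.1 - L21.1) := by
    rw [off A2 B1 l L21 h2 h10 h11, off A1 B2 l L12 h1 h7 h8]; ring
  have f2 : (B1.2 + l.1 * B1.1 + l.2) * (B3.1 - A1.1) - (B3.2 + l.1 * B3.1 + l.2) * (B1.1 - A3.1)
      = (B1.1 - A3.1) * (B3.1 - A1.1) * (L13.1 - L31.1) := by
    rw [off A3 B1 l L31 h3 h16 h17, off A1 B3 l L13 h1 h13 h14]; ring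
  have f3 : (B2.2 + l.1 * B2.1 + l.2) * (B3.1 - A2.1) - (B3.2 + l.1 * B3.1 + l.2) * (B2.1 - A3.1)
      = (B2.1 - A3.1) * (B3.1 - A2.1) * (L23.1 - L32.1) := by
    rw [off A3 B2 l L32 h3 h22 h23, off A2 B3 l L23 h2 h19 h20]; ring
  have H := pappus_alg A1.1 A2.1 A3.1 B1.1 B2.1 B3.1
    (B1.2 + l.1 * B1.1 + l.2) (B2.2 + l.1 * B2.1 + l.2) (B3.2 + l.1 * B3.1 + l.2)
    C1.1 (C1.2 + l.1 * C1.1 + l.2) C2.1 (C2.2 + l.1 * C2.1 + l.2) C3.1 (C3.2 + l.1 * C3.1 + l.2)
    (l.1 - m.1) (l.2 - m.2) (by unfold on at h4; linear_combination h4)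
    (by unfold on at h5; linear_combination h5) (by unfold on at h6; linear_combination h6)
    (cross A1 B2 C3 l L12 h1 h7 h8 h9) (cross A2 B1 C3 l L21 h2 h10 h11 h12)
    (cross A1 B3 C2 l L13 h1 h13 h14 h15) (cross A3 B1 C2 l L31 h3 h16 h17 h18)
    (cross A2 B3 C1 l L23 h2 h19 h20 h21) (cross A3 B2 C1 l L32 h3 h22 h23 h24)
    (by
      rw [f1]
      exact mul_ne_zero (mul_ne_zero (sub_ne_zero.2 a21.symm) (sub_ne_zero.2 a12.symm))
        (sub_ne_zero.2 s3))
    (by
      rw [f2]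
      exact mul_ne_zero (mul_ne_zero (sub_ne_zero.2 a31.symm) (sub_ne_zero.2 a13.symm))
        (sub_ne_zero.2 s2.symm))
    (by
      rw [f3]
      exact mul_ne_zero (mul_ne_zero (sub_ne_zero.2 a32.symm) (sub_ne_zero.2 a23.symm))
        (sub_ne_zero.2 s1))
  apply hdet
  linear_combination H

lemma distForm_eq_zero {n m : ℕ} (s : Scene n m) (e : Fin n × Fin n)
    (h : (s.x e.1, s.y e.1) = (s.x e.2, s.y e.2)) : distForm s e = 0 := by
  have h1 : s.x e.1 = s.x e.2 := congrArg Prod.fst h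
  have h2 : s.y e.1 = s.y e.2 := congrArg Prod.snd h
  ext v <;> simp [distForm, h1, h2]

/-- At every scene realising the structure the constraints are dependent. -/
theorem dependent (s : Scene 9 8) (hs : s.Realises pappusI) : ¬ AllIndep s pappusE pappusI := by
  intro hind
  unfold AllIndep at hind
  have hE : LinearIndependent ℝ (fun e : {e // e ∈ pappusE} => distForm s e.1) :=
    hind.comp Sum.inl Sum.inl_injective
  have hne : ∀ e (he : e ∈ pappusE), (s.x e.1, s.y e.1) ≠ (s.x e.2, s.y e.2) := by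
    intro e he h
    exact hE.ne_zero ⟨e, he⟩ (distForm_eq_zero s e h)
  have hon : ∀ (i : Fin 9) (j : Fin 8), (i, j) ∈ pappusI →
      on (s.x i, s.y i) (s.A j, s.C j) := fun i j h => hs (i, j) h
  have hcol := pappus_geo (s.x 0, s.y 0) (s.x 1, s.y 1) (s.x 2, s.y 2) (s.x 3, s.y 3)
    (s.x 4, s.y 4) (s.x 5, s.y 5) (s.x 6, s.y 6) (s.x 7, s.y 7) (s.x 8, s.y 8)
    (s.A 0, s.C 0) (s.A 1, s.C 1) (s.A 2, s.C 2) (s.A 3, s.C 3) (s.A 4, s.C 4) (s.A 5, s.C 5)
    (s.A 6, s.C 6) (s.A 7, s.C 7)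
    (hon 0 0 (by decide)) (hon 1 0 (by decide)) (hon 2 0 (by decide))
    (hon 3 1 (by decide)) (hon 4 1 (by decide)) (hon 5 1 (by decide))
    (hon 0 2 (by decide)) (hon 4 2 (by decide)) (hon 8 2 (by decide))
    (hon 1 3 (by decide)) (hon 3 3 (by decide)) (hon 8 3 (by decide))
    (hon 0 4 (by decide)) (hon 5 4 (by decide)) (hon 7 4 (by decide))
    (hon 2 5 (by decide)) (hon 3 5 (by decide)) (hon 7 5 (by decide))
    (hon 1 6 (by decide)) (hon 5 6 (by decide)) (hon 6 6 (by decide))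
    (hon 2 7 (by decide)) (hon 4 7 (by decide)) (hon 6 7 (by decide))
    (hne (0, 4) (by decide)) (hne (1, 5) (by decide)) (hne (2, 3) (by decide))
    (hne (6, 7) (by decide)) (hne (7, 8) (by decide)) (hne (6, 8) (by decide))
  simp only at hcol
  -- the three forms on the collinear triple
  let f : Fin 3 → {e // e ∈ pappusE} := ![⟨(6, 7), by decide⟩, ⟨(7, 8), by decide⟩,
    ⟨(6, 8), by decide⟩]
  have hf : Function.Injective f := by decide
  have h3 := Fintype.linearIndependent_iff.1 (hE.comp f hf)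
  set X1 := s.x 6 with hX1
  set X2 := s.x 7 with hX2
  set X3 := s.x 8 with hX3
  set Y1 := s.y 6 with hY1
  set Y2 := s.y 7 with hY2
  set Y3 := s.y 8 with hY3
  have h4 := h3 ![(X2 - X3) * (X3 - X1) + (Y2 - Y3) * (Y3 - Y1),
    (X1 - X2) * (X3 - X1) + (Y1 - Y2) * (Y3 - Y1),
    (X1 - X2) * (X2 - X3) + (Y1 - Y2) * (Y2 - Y3)] (by
      apply LinearMap.ext
      intro v
      simp only [Fin.sum_univ_three, Function.comp_apply, f, Matrix.cons_val_zero,
        Matrix.cons_val_one, Matrix.cons_val, LinearMap.add_apply, LinearMap.smul_apply,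
        smul_eq_mul, LinearMap.zero_apply]
      simp only [distForm, LinearMap.coe_mk, AddHom.coe_mk]
      rw [← hX1, ← hX2, ← hX3, ← hY1, ← hY2, ← hY3]
      linear_combination (-((Y2 - Y3) * v.1 6 - (X2 - X3) * v.2.1 6)
        - ((Y3 - Y1) * v.1 7 - (X3 - X1) * v.2.1 7)
        - ((Y1 - Y2) * v.1 8 - (X1 - X2) * v.2.1 8)) * hcol)
  have h5 := h4 0
  simp only [Matrix.cons_val_zero] at h5
  have hQR : ((X2 - X3) ^ 2 + (Y2 - Y3) ^ 2) * ((X3 - X1) ^ 2 + (Y3 - Y1) ^ 2) = 0 := by
    linear_combination ((X2 - X3) * (X3 - X1) + (Y2 - Y3) * (Y3 - Y1)) * h5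
      + ((X2 - X3) * (Y3 - Y1) - (Y2 - Y3) * (X3 - X1)) * hcol
  rcases mul_eq_zero.1 hQR with h | h
  · apply hne (7, 8) (by decide)
    have e1 : X2 - X3 = 0 := by nlinarith [sq_nonneg (X2 - X3), sq_nonneg (Y2 - Y3)]
    have e2 : Y2 - Y3 = 0 := by nlinarith [sq_nonneg (X2 - X3), sq_nonneg (Y2 - Y3)]
    exact Prod.ext (sub_eq_zero.1 e1) (sub_eq_zero.1 e2)
  · apply hne (6, 8) (by decide)
    have e1 : X3 - X1 = 0 := by nlinarith [sq_nonneg (X3 - X1), sq_nonneg (Y3 - Y1)]
    have e2 : Y3 - Y1 = 0 := by nlinarith [sq_nonneg (X3 - X1), sq_nonneg (Y3 - Y1)]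
    exact Prod.ext (sub_eq_zero.1 e1).symm (sub_eq_zero.1 e2).symm

/-- A proper scene realising the structure. -/
noncomputable def goodScene : Scene 9 8 where
  x := ![0, 1, 3, 5, 2, 4, 5 / 2, 6, -1]
  y := ![0, 0, 0, 1, 1, 1, 1 / 2, 3 / 2, -1 / 2]
  A := ![0, 0, -1 / 2, -1 / 4, -1 / 4, -1 / 2, -1 / 3, 1]
  C := ![0, -1, 0, 1 / 4, 0, 3 / 2, 1 / 3, -3]

lemma goodScene_realises : goodScene.Realises pappusI := by
  intro p hp
  simp only [pappusI, Finset.mem_insert, Finset.mem_singleton] at hp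
  rcases hp with rfl | rfl | rfl | rfl | rfl | rfl | rfl | rfl | rfl | rfl | rfl | rfl | rfl |
    rfl | rfl | rfl | rfl | rfl | rfl | rfl | rfl | rfl | rfl | rfl <;>
  simp [goodScene] <;> norm_num

lemma goodScene_proper : goodScene.Proper := by
  constructor
  · intro i j h
    fin_cases i <;> fin_cases j <;> first | rfl | (exfalso; norm_num [goodScene, Matrix.cons_val] at h)
  · intro i j h
    fin_cases i <;> fin_cases j <;> first | rfl | (exfalso; norm_num [goodScene, Matrix.cons_val] at h)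

lemma count_aux : ∀ W : Finset (Fin 9), 2 ≤ W.card →
    (pappusE.filter (fun e => e.1 ∈ W ∧ e.2 ∈ W)).card
      + ∑ f : Fin 8, ((W.filter (fun p => (p, f) ∈ pappusI)).card - 2) + 3 ≤ 2 * W.card := by
  decide +kernel

lemma verts_mem_E {n m : ℕ} {E' : Finset (Fin n × Fin n)} {I' : Finset (Fin n × Fin m)}
    {e : Fin n × Fin n} (he : e ∈ E') : e.1 ∈ verts E' I' ∧ e.2 ∈ verts E' I' := by
  simp only [verts, Finset.mem_union, Finset.mem_image]
  exact ⟨Or.inl (Or.inl ⟨e, he, rfl⟩), Or.inl (Or.inr ⟨e, he, rfl⟩)⟩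

lemma verts_mem_I {n m : ℕ} {E' : Finset (Fin n × Fin n)} {I' : Finset (Fin n × Fin m)}
    {p : Fin n × Fin m} (hp : p ∈ I') : p.1 ∈ verts E' I' := by
  simp only [verts, Finset.mem_union, Finset.mem_image]
  exact Or.inr ⟨p, hp, rfl⟩

/-- The count holds. -/
theorem count_holds : CountHolds pappusE pappusI := by
  intro E' hE' I' hI' hne
  set W := verts E' I' with hW
  set Fs := I'.image Prod.snd with hFs
  have hEle : E'.card ≤ (pappusE.filter (fun e => e.1 ∈ W ∧ e.2 ∈ W)).card := by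
    apply Finset.card_le_card
    intro e he
    rw [Finset.mem_filter]
    exact ⟨hE' he, verts_mem_E he⟩
  have hIle : I'.card ≤ ∑ f ∈ Fs, (W.filter (fun p => (p, f) ∈ pappusI)).card := by
    have h1 : I'.card = ∑ f ∈ Fs, (I'.filter (fun p => p.2 = f)).card :=
      Finset.card_eq_sum_card_fiberwise (fun p hp => Finset.mem_image_of_mem _ hp)
    rw [h1]
    refine Finset.sum_le_sum fun f _ => ?_
    apply Finset.card_le_card_of_injOn Prod.fst
    · intro p hp
      have hp' := Finset.mem_filter.1 hp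
      rw [Finset.mem_coe, Finset.mem_filter]
      refine ⟨verts_mem_I hp'.1, ?_⟩
      have : (p.1, f) = p := by rw [← hp'.2]
      rw [this]
      exact hI' hp'.1
    · intro p hp q hq hpq
      have hp' := Finset.mem_filter.1 hp
      have hq' := Finset.mem_filter.1 hq
      exact Prod.ext hpq (hp'.2.trans hq'.2.symm)
  by_cases h2 : 2 ≤ W.card
  · have h3 := count_aux W h2
    have h4 : ∑ f ∈ Fs, (W.filter (fun p => (p, f) ∈ pappusI)).card
        ≤ 2 * Fs.card + ∑ f : Fin 8, ((W.filter (fun p => (p, f) ∈ pappusI)).card - 2) := by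
      calc ∑ f ∈ Fs, (W.filter (fun p => (p, f) ∈ pappusI)).card
          ≤ ∑ f ∈ Fs, (2 + ((W.filter (fun p => (p, f) ∈ pappusI)).card - 2)) := by
            refine Finset.sum_le_sum fun f _ => ?_
            omega
        _ = 2 * Fs.card + ∑ f ∈ Fs, ((W.filter (fun p => (p, f) ∈ pappusI)).card - 2) := by
            rw [Finset.sum_add_distrib, Finset.sum_const, smul_eq_mul, mul_comm]
        _ ≤ _ := by
            have := Finset.sum_le_sum_of_subset (f := fun f =>
              ((W.filter (fun p => (p, f) ∈ pappusI)).card - 2)) (Finset.subset_univ Fs)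
            omega
    omega
  · have hW1 : W.card ≤ 1 := by omega
    have hE0 : E' = ∅ := by
      rw [Finset.eq_empty_iff_forall_notMem]
      intro e he
      have h := verts_mem_E (I' := I') he
      have h5 := Finset.card_le_one.1 hW1 _ h.1 _ h.2
      have h6 : ∀ e ∈ pappusE, e.1 ≠ e.2 := by decide
      exact h6 e (hE' he) h5
    have hI : I'.Nonempty := by
      rcases hne with h | h
      · rw [hE0] at h; exact absurd h (by simp)
      · exact h
    have hFpos : 0 < Fs.card := Finset.card_pos.2 (hI.image _)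
    have hWpos : 0 < W.card := by
      obtain ⟨p, hp⟩ := hI
      exact Finset.card_pos.2 ⟨p.1, verts_mem_I hp⟩
    have h7 : ∑ f ∈ Fs, (W.filter (fun p => (p, f) ∈ pappusI)).card ≤ ∑ f ∈ Fs, 1 := by
      refine Finset.sum_le_sum fun f _ => ?_
      exact le_trans (Finset.card_filter_le _ _) hW1
    rw [Finset.sum_const, smul_eq_mul, mul_one] at h7
    rw [hE0, Finset.card_empty]
    omega

/-- Independence of the incidences at the proper scene. -/
theorem good_indep : IncIndep goodScene pappusI := by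
  classical
  unfold IncIndep
  rw [Fintype.linearIndependent_iff]
  intro g hg
  set G : Fin 9 × Fin 8 → ℝ := fun p => if h : p ∈ pappusI then g ⟨p, h⟩ else 0 with hG
  have hsum : ∑ p ∈ pappusI, G p • incForm goodScene p = 0 := by
    rw [← Finset.sum_coe_sort, ← hg]
    refine Finset.sum_congr rfl fun p _ => ?_
    simp [hG]
  have hev : ∀ v : Vars 9 8, ∑ p ∈ pappusI, G p * (goodScene.A p.2 * v.1 p.1
      + goodScene.x p.1 * v.2.2.1 p.2 + v.2.1 p.1 + v.2.2.2 p.2) = 0 := by
    intro v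
    have := LinearMap.congr_fun hsum v
    simpa [LinearMap.sum_apply, incForm] using this
  have eval_w : ∀ i : Fin 9, ∑ p ∈ pappusI.filter (fun p => p.1 = i), G p = 0 := by
    intro i
    rw [Finset.sum_filter]
    refine Eq.trans ?_ (hev (0, Pi.single i 1, 0, 0))
    refine Finset.sum_congr rfl fun p _ => ?_
    by_cases h : p.1 = i
    · simp [h]
    · simp [h]
  have eval_u : ∀ i : Fin 9, ∑ p ∈ pappusI.filter (fun p => p.1 = i), G p * goodScene.A p.2
      = 0 := by
    intro i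
    rw [Finset.sum_filter]
    refine Eq.trans ?_ (hev (Pi.single i 1, 0, 0, 0))
    refine Finset.sum_congr rfl fun p _ => ?_
    by_cases h : p.1 = i
    · simp [h]
    · simp [h]
  have eval_W : ∀ j : Fin 8, ∑ p ∈ pappusI.filter (fun p => p.2 = j), G p = 0 := by
    intro j
    rw [Finset.sum_filter]
    refine Eq.trans ?_ (hev (0, 0, 0, Pi.single j 1))
    refine Finset.sum_congr rfl fun p _ => ?_
    by_cases h : p.2 = j
    · simp [h]
    · simp [h]
  have eval_U : ∀ j : Fin 8, ∑ p ∈ pappusI.filter (fun p => p.2 = j), G p * goodScene.x p.1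
      = 0 := by
    intro j
    rw [Finset.sum_filter]
    refine Eq.trans ?_ (hev (0, 0, Pi.single j 1, 0))
    refine Finset.sum_congr rfl fun p _ => ?_
    by_cases h : p.2 = j
    · simp [h]
    · simp [h]
  have fp0 : pappusI.filter (fun p => p.1 = 0) = {(0, 0), (0, 2), (0, 4)} := by decide
  have fp1 : pappusI.filter (fun p => p.1 = 1) = {(1, 0), (1, 3), (1, 6)} := by decide
  have fp2 : pappusI.filter (fun p => p.1 = 2) = {(2, 0), (2, 5), (2, 7)} := by decide
  have fp3 : pappusI.filter (fun p => p.1 = 3) = {(3, 1), (3, 3), (3, 5)} := by decide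
  have fp4 : pappusI.filter (fun p => p.1 = 4) = {(4, 1), (4, 2), (4, 7)} := by decide
  have fp5 : pappusI.filter (fun p => p.1 = 5) = {(5, 1), (5, 4), (5, 6)} := by decide
  have fp6 : pappusI.filter (fun p => p.1 = 6) = {(6, 6), (6, 7)} := by decide
  have fp7 : pappusI.filter (fun p => p.1 = 7) = {(7, 4), (7, 5)} := by decide
  have fp8 : pappusI.filter (fun p => p.1 = 8) = {(8, 2), (8, 3)} := by decide
  have fl0 : pappusI.filter (fun p => p.2 = 0) = {(0, 0), (1, 0), (2, 0)} := by decide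
  have fl1 : pappusI.filter (fun p => p.2 = 1) = {(3, 1), (4, 1), (5, 1)} := by decide
  have fl2 : pappusI.filter (fun p => p.2 = 2) = {(0, 2), (4, 2), (8, 2)} := by decide
  have fl3 : pappusI.filter (fun p => p.2 = 3) = {(1, 3), (3, 3), (8, 3)} := by decide
  have fl4 : pappusI.filter (fun p => p.2 = 4) = {(0, 4), (5, 4), (7, 4)} := by decide
  have fl5 : pappusI.filter (fun p => p.2 = 5) = {(2, 5), (3, 5), (7, 5)} := by decide
  have fl6 : pappusI.filter (fun p => p.2 = 6) = {(1, 6), (5, 6), (6, 6)} := by decide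
  have fl7 : pappusI.filter (fun p => p.2 = 7) = {(2, 7), (4, 7), (6, 7)} := by decide
  have w6 : G (6, 6) + G (6, 7) = 0 := by
    have h := eval_w 6
    rw [fp6] at h
    rw [Finset.sum_insert (by decide), Finset.sum_singleton] at h
    linarith
  have u6 : G (6, 6) * (-1 / 3) + G (6, 7) * 1 = 0 := by
    have h := eval_u 6
    rw [fp6] at h
    rw [Finset.sum_insert (by decide), Finset.sum_singleton] at h
    simp [goodScene] at h
    linarith
  have z66 : G (6, 6) = 0 := by linarith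
  have z67 : G (6, 7) = 0 := by linarith
  have w7 : G (7, 4) + G (7, 5) = 0 := by
    have h := eval_w 7
    rw [fp7] at h
    rw [Finset.sum_insert (by decide), Finset.sum_singleton] at h
    linarith
  have u7 : G (7, 4) * (-1 / 4) + G (7, 5) * (-1 / 2) = 0 := by
    have h := eval_u 7
    rw [fp7] at h
    rw [Finset.sum_insert (by decide), Finset.sum_singleton] at h
    simp [goodScene] at h
    linarith
  have z74 : G (7, 4) = 0 := by linarith
  have z75 : G (7, 5) = 0 := by linarith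
  have w8 : G (8, 2) + G (8, 3) = 0 := by
    have h := eval_w 8
    rw [fp8] at h
    rw [Finset.sum_insert (by decide), Finset.sum_singleton] at h
    linarith
  have u8 : G (8, 2) * (-1 / 2) + G (8, 3) * (-1 / 4) = 0 := by
    have h := eval_u 8
    rw [fp8] at h
    rw [Finset.sum_insert (by decide), Finset.sum_singleton] at h
    simp [goodScene] at h
    linarith
  have z82 : G (8, 2) = 0 := by linarith
  have z83 : G (8, 3) = 0 := by linarith
  have W2 : G (0, 2) + G (4, 2) + G (8, 2) = 0 := by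
    have h := eval_W 2
    rw [fl2] at h
    rw [Finset.sum_insert (by decide), Finset.sum_insert (by decide), Finset.sum_singleton] at h
    linarith
  have U2 : G (0, 2) * 0 + G (4, 2) * 2 + G (8, 2) * (-1) = 0 := by
    have h := eval_U 2
    rw [fl2] at h
    rw [Finset.sum_insert (by decide), Finset.sum_insert (by decide), Finset.sum_singleton] at h
    simp [goodScene] at h
    linarith
  have z02 : G (0, 2) = 0 := by linarith
  have z42 : G (4, 2) = 0 := by linarith
  have W3 : G (1, 3) + G (3, 3) + G (8, 3) = 0 := by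
    have h := eval_W 3
    rw [fl3] at h
    rw [Finset.sum_insert (by decide), Finset.sum_insert (by decide), Finset.sum_singleton] at h
    linarith
  have U3 : G (1, 3) * 1 + G (3, 3) * 5 + G (8, 3) * (-1) = 0 := by
    have h := eval_U 3
    rw [fl3] at h
    rw [Finset.sum_insert (by decide), Finset.sum_insert (by decide), Finset.sum_singleton] at h
    simp [goodScene] at h
    linarith
  have z13 : G (1, 3) = 0 := by linarith
  have z33 : G (3, 3) = 0 := by linarith
  have W4 : G (0, 4) + G (5, 4) + G (7, 4) = 0 := by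
    have h := eval_W 4
    rw [fl4] at h
    rw [Finset.sum_insert (by decide), Finset.sum_insert (by decide), Finset.sum_singleton] at h
    linarith
  have U4 : G (0, 4) * 0 + G (5, 4) * 4 + G (7, 4) * 6 = 0 := by
    have h := eval_U 4
    rw [fl4] at h
    rw [Finset.sum_insert (by decide), Finset.sum_insert (by decide), Finset.sum_singleton] at h
    simp [goodScene] at h
    linarith
  have z04 : G (0, 4) = 0 := by linarith
  have z54 : G (5, 4) = 0 := by linarith
  have W5 : G (2, 5) + G (3, 5) + G (7, 5) = 0 := by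
    have h := eval_W 5
    rw [fl5] at h
    rw [Finset.sum_insert (by decide), Finset.sum_insert (by decide), Finset.sum_singleton] at h
    linarith
  have U5 : G (2, 5) * 3 + G (3, 5) * 5 + G (7, 5) * 6 = 0 := by
    have h := eval_U 5
    rw [fl5] at h
    rw [Finset.sum_insert (by decide), Finset.sum_insert (by decide), Finset.sum_singleton] at h
    simp [goodScene] at h
    linarith
  have z25 : G (2, 5) = 0 := by linarith
  have z35 : G (3, 5) = 0 := by linarith
  have W6 : G (1, 6) + G (5, 6) + G (6, 6) = 0 := by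
    have h := eval_W 6
    rw [fl6] at h
    rw [Finset.sum_insert (by decide), Finset.sum_insert (by decide), Finset.sum_singleton] at h
    linarith
  have U6 : G (1, 6) * 1 + G (5, 6) * 4 + G (6, 6) * (5 / 2) = 0 := by
    have h := eval_U 6
    rw [fl6] at h
    rw [Finset.sum_insert (by decide), Finset.sum_insert (by decide), Finset.sum_singleton] at h
    simp [goodScene] at h
    linarith
  have z16 : G (1, 6) = 0 := by linarith
  have z56 : G (5, 6) = 0 := by linarith
  have W7 : G (2, 7) + G (4, 7) + G (6, 7) = 0 := by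
    have h := eval_W 7
    rw [fl7] at h
    rw [Finset.sum_insert (by decide), Finset.sum_insert (by decide), Finset.sum_singleton] at h
    linarith
  have U7 : G (2, 7) * 3 + G (4, 7) * 2 + G (6, 7) * (5 / 2) = 0 := by
    have h := eval_U 7
    rw [fl7] at h
    rw [Finset.sum_insert (by decide), Finset.sum_insert (by decide), Finset.sum_singleton] at h
    simp [goodScene] at h
    linarith
  have z27 : G (2, 7) = 0 := by linarith
  have z47 : G (4, 7) = 0 := by linarith
  have w0 : G (0, 0) + G (0, 2) + G (0, 4) = 0 := by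
    have h := eval_w 0
    rw [fp0] at h
    rw [Finset.sum_insert (by decide), Finset.sum_insert (by decide), Finset.sum_singleton] at h
    linarith
  have z00 : G (0, 0) = 0 := by linarith
  have w1 : G (1, 0) + G (1, 3) + G (1, 6) = 0 := by
    have h := eval_w 1
    rw [fp1] at h
    rw [Finset.sum_insert (by decide), Finset.sum_insert (by decide), Finset.sum_singleton] at h
    linarith
  have z10 : G (1, 0) = 0 := by linarith
  have w2 : G (2, 0) + G (2, 5) + G (2, 7) = 0 := by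
    have h := eval_w 2
    rw [fp2] at h
    rw [Finset.sum_insert (by decide), Finset.sum_insert (by decide), Finset.sum_singleton] at h
    linarith
  have z20 : G (2, 0) = 0 := by linarith
  have w3 : G (3, 1) + G (3, 3) + G (3, 5) = 0 := by
    have h := eval_w 3
    rw [fp3] at h
    rw [Finset.sum_insert (by decide), Finset.sum_insert (by decide), Finset.sum_singleton] at h
    linarith
  have z31 : G (3, 1) = 0 := by linarith
  have w4 : G (4, 1) + G (4, 2) + G (4, 7) = 0 := by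
    have h := eval_w 4
    rw [fp4] at h
    rw [Finset.sum_insert (by decide), Finset.sum_insert (by decide), Finset.sum_singleton] at h
    linarith
  have z41 : G (4, 1) = 0 := by linarith
  have w5 : G (5, 1) + G (5, 4) + G (5, 6) = 0 := by
    have h := eval_w 5
    rw [fp5] at h
    rw [Finset.sum_insert (by decide), Finset.sum_insert (by decide), Finset.sum_singleton] at h
    linarith
  have z51 : G (5, 1) = 0 := by linarith
  have hall : ∀ p ∈ pappusI, G p = 0 := by
    intro p hp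
    simp only [pappusI, Finset.mem_insert, Finset.mem_singleton] at hp
    rcases hp with rfl | rfl | rfl | rfl | rfl | rfl | rfl | rfl | rfl | rfl | rfl | rfl | rfl | rfl | rfl | rfl | rfl | rfl | rfl | rfl | rfl | rfl | rfl | rfl
    · exact z00
    · exact z10
    · exact z20
    · exact z31
    · exact z41
    · exact z51
    · exact z02
    · exact z42
    · exact z82
    · exact z13
    · exact z33
    · exact z83
    · exact z04
    · exact z54
    · exact z74
    · exact z25
    · exact z35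
    · exact z75
    · exact z16
    · exact z56
    · exact z66
    · exact z27
    · exact z47
    · exact z67
  intro p
  have := hall p.1 p.2
  simpa [hG] using this

/-- There are an incidence structure `(Fin n, Fin m; I)` and a set `E` of distance constraints such
that `I` is independent at a proper scene (distinct points, distinct lines) realising it, the count
holds for all subsets, and yet `E ∪ I` is dependent at every scene realising the structure. -/
theorem result : ∃ (n m : ℕ) (I : Finset (Fin n × Fin m)) (E : Finset (Fin n × Fin n)),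
    (∀ e ∈ E, e.1 < e.2) ∧
    (∃ s : Scene n m, s.Proper ∧ s.Realises I ∧ IncIndep s I) ∧
    CountHolds E I ∧
    ∀ s : Scene n m, s.Realises I → ¬ AllIndep s E I :=
  ⟨9, 8, pappusI, pappusE, by decide, ⟨goodScene, goodScene_proper, goodScene_realises, good_indep⟩,
    count_holds, dependent⟩

end Pool.Agent.Results.MP_b5aa09_co.PappusCounterexample
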